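import Pool.Agent.P8H9.OP.Count
import Pool.Agent.N71.SI.FinB

/-!
# Few exceptional discriminants in short intervals
-/

set_option autoImplicit false

namespace Pool.Agent.P8H9.OP

open Finset Filter NumberField Pool.Agent.H38R2.CG Pool.Agent.H38R2.CG2 Pool.Agent.N71.SP
open Pool.Agent.N71.SI (high_cardH parG floor_H)
open Pool.Agent.R345.IX (SD_nonneg Qz_two Lone_le)
open scoped Classical

/-- few exceptional discriminants in a short interval -/
theorem count_badT (hN3 : P_N3) (hN3a : P_N3a)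
    (P : Set ℕ) (σ : ℝ) (hσ0 : 0 < σ) (hσ1 : σ ≤ 1) (hP : Many P σ) (a : ℝ)
    (ha : 1 < a * σ) (c w κ θ : ℝ) (hc0 : 0 < c) (hc2 : c ≤ 3 / 2)
    (hθpos : 0 < θ) (hκ0 : 0 ≤ κ)
    (hκ : 1 / 2 - c * (σ - 1 / a) ≤ κ) (hcκ : c - w ≤ κ) (ε : ℝ)
    (hε : 0 < ε) : ∃ δ : ℝ, 0 < δ ∧ δ ≤ 1 ∧ ∃ X0 : ℕ, ∀ X ≥ X0, ∀ X' H : ℕ, X ≤ X' → X' ≤ 4 * X →
    (X : ℝ) ^ w ≤ H → H ≤ X' →
    (((Finset.Ioc X' (X' + H)).filter (fun D => IsFund D ∧
      BadT P θ a c (κ + ε) X D)).card : ℝ) ≤ H * (X : ℝ) ^ (-δ) := by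
  obtain ⟨C, hC, hLone⟩ := Lone_le hN3a
  have ha0 : 0 < a := by
    by_contra h
    push Not at h
    nlinarith
  have hs : 0 < σ - 1 / a := by
    rw [sub_pos, div_lt_iff₀ ha0]
    linarith
  set s0 : ℝ := c * (σ - 1 / a) with hs0
  have hs0pos : 0 < s0 := mul_pos hc0 hs
  set η : ℝ := min (ε / 20) (min (s0 / 4) (1 / 4)) with hη
  have hηpos : 0 < η := lt_min (by positivity) (lt_min (by positivity) (by norm_num))
  have hη1 : η ≤ ε / 20 := min_le_left _ _
  have hη2 : η ≤ s0 / 4 := (min_le_right _ _).trans (min_le_left _ _)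
  have hη3 : η ≤ 1 / 4 := (min_le_right _ _).trans (min_le_right _ _)
  set B : ℝ := max 8 (max (4 / θ ^ 2) (1 / θ)) with hB
  have hB8 : 8 ≤ B := le_max_left _ _
  have hB4 : 4 / θ ^ 2 ≤ B := (le_max_left _ _).trans (le_max_right _ _)
  have hB1 : 1 / θ ≤ B := (le_max_right _ _).trans (le_max_right _ _)
  refine ⟨η / 2, by positivity, by linarith, ?_⟩
  rw [← Filter.eventually_atTop]
  have hpar := parG P σ hσ0 hσ1 hP a c ha hc0 hc2 η B hηpos (by linarith)
  have hlog1 := ERRh.ev_log (η / 2) (by positivity)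
  have hc1 := ERRh.ev_const (η / 2) (by positivity) (max (4096 * C) 4096)
  have hc2' := ERRh.ev_const (η / 2) (by positivity) (max (4 * C) 48)
  filter_upwards [hpar, hlog1, hc1, hc2', eventually_ge_atTop 2] with X hX hl1 hk1 hk2
    hX2 X' H hXX' hX'4 hXH hHX
  have hX1 : 1 ≤ X := by omega
  obtain ⟨q1, q2, q3, q4, q5, q6, q7, q8, q9, -⟩ := hX
  have hXr : (1 : ℝ) ≤ X := by exact_mod_cast hX1
  have hXr2 : (2 : ℝ) ≤ X := by exact_mod_cast hX2
  have hX0 : (0 : ℝ) < X := by linarith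
  have hH0 : (0 : ℝ) < H := lt_of_lt_of_le (Real.rpow_pos_of_pos hX0 _) hXH
  have hH1 : 1 ≤ H := by
    have : 0 < H := by exact_mod_cast hH0
    omega
  have hX'1 : 1 ≤ X' := by omega
  have hlogX : 0 ≤ Real.log X := Real.log_natCast_nonneg X
  set y := yS a X with hy
  set k := kS a c X with hk
  set Q := QQ P y with hQ
  set M : ℝ := (Q.card.choose k : ℝ) with hM
  set Z : ℕ := (2 * y) ^ k with hZ
  have hZ1 : 1 ≤ Z := Nat.one_le_pow _ _ (by omega)
  have hZr : (Z : ℝ) ≤ (X : ℝ) ^ c := by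
    rw [hZ, Nat.cast_pow]
    exact q2
  have hlogZ : Real.log Z ≤ 3 / 2 * Real.log X := by
    have e1 : Real.log Z = (k : ℝ) * Real.log (2 * y) := by
      rw [hZ]
      push_cast
      rw [Real.log_pow]
    rw [e1]
    exact q9.trans (mul_le_mul_of_nonneg_right hc2 hlogX)
  have hhalf : (X : ℝ) ^ (η / 2) * (X : ℝ) ^ (η / 2) = (X : ℝ) ^ η := by
    rw [← Real.rpow_add hX0]; congr 1; ring
  have hXh : 0 < (X : ℝ) ^ (η / 2) := Real.rpow_pos_of_pos hX0 _
  have hXη : 0 < (X : ℝ) ^ η := Real.rpow_pos_of_pos hX0 _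
  have hXh1 : 1 ≤ (X : ℝ) ^ (η / 2) := Real.one_le_rpow hXr (by positivity)
  have hXhη : (X : ℝ) ^ (η / 2) ≤ (X : ℝ) ^ η := Real.rpow_le_rpow_of_exponent_le hXr (by linarith)
  -- many primes in the window
  have hkr : (1 : ℝ) ≤ k := by exact_mod_cast q5
  have hquot : 1 / θ ≤ ((Q.card / (2 * k) : ℕ) : ℝ) := by
    by_contra hcon
    push Not at hcon
    have h1 : (((Q.card / (2 * k) : ℕ) : ℝ)) ^ k ≤ B ^ k :=
      pow_le_pow_left₀ (Nat.cast_nonneg _) (hcon.le.trans hB1) _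
    have h2 : (X : ℝ) ^ (s0 - η) ≤ (X : ℝ) ^ η := q8.trans (h1.trans q3)
    have h3 : (X : ℝ) ^ η < (X : ℝ) ^ (s0 - η) :=
      Real.rpow_lt_rpow_of_exponent_lt (by linarith) (by linarith)
    linarith
  have h20 : 2 * (k : ℝ) ≤ θ * Q.card := by
    have h1 : (((2 * k) * (Q.card / (2 * k)) : ℕ) : ℝ) ≤ Q.card := by
      exact_mod_cast Nat.mul_div_le _ _
    push_cast at h1
    have h2 : 2 * (k : ℝ) * (1 / θ) ≤ Q.card := by
      refine le_trans ?_ h1
      have : (0 : ℝ) ≤ 2 * (k : ℝ) := by linarith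
      exact mul_le_mul_of_nonneg_left (by exact_mod_cast hquot) this
    rw [mul_one_div, div_le_iff₀ hθpos] at h2
    linarith
  have hPm : ∀ p ∈ Q, p.Prime ∧ p ≠ 2 ∧ p ≤ 2 * y := by
    intro p hp
    obtain ⟨h1, h2, h3, h4⟩ := QQ_mem q1 hp
    exact ⟨h1, h2, h4⟩
  -- the exceptional set for each residue class
  let High : ℕ → Finset ℕ := fun r => (DD 2 r X' ((H : ℝ) / X')).filter
    (fun D : ℕ => (X : ℝ) ^ (4 * η) * (((Q.powersetCard k).card : ℝ) +
      ((Q.powersetCard k).card : ℝ) ^ 2 * (H / √(X' : ℝ) + Z / √(X' : ℝ)) / H) <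
        SD D (Q.powersetCard k) (fun _ => 1))
  have hcardS : ((Q.powersetCard k).card : ℝ) = M := by rw [Finset.card_powersetCard, hM]
  have hcardS0 : 0 < (Q.powersetCard k).card := by
    rw [Finset.card_powersetCard]
    exact Nat.choose_pos (by omega)
  have hHigh : ∀ r < Qz 2, ((High r).card : ℝ) ≤ H * (X : ℝ) ^ (-η) := by
    intro r hr
    have hS : ∀ s ∈ Q.powersetCard k, (∀ p ∈ s, p.Prime) ∧ s.card = k ∧ prodS s ≤ Z := by
      intro s hs
      obtain ⟨hs1, hs2⟩ := Finset.mem_powersetCard.1 hs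
      refine ⟨fun p hp => (hPm p (hs1 hp)).1, hs2, ?_⟩
      unfold prodS
      rw [hZ, ← hs2]
      exact Finset.prod_le_pow_card _ _ _ fun p hp => (hPm p (hs1 hp)).2.2
    have h1 := high_cardH r X' H k Z hr hX'1 hH1 hHX hZ1 (Q.powersetCard k) hS ((X : ℝ) ^ (4 * η))
      (Real.rpow_pos_of_pos hX0 _) hcardS0
    refine h1.trans ?_
    rw [div_le_iff₀ (Real.rpow_pos_of_pos hX0 _), mul_assoc (H : ℝ), ← Real.rpow_add hX0]
    have h8 : (8 : ℝ) ^ k ≤ (X : ℝ) ^ η :=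
      (pow_le_pow_left₀ (by norm_num) hB8 _).trans q3
    have h4096 : (4096 : ℝ) ≤ (X : ℝ) ^ (η / 2) := (le_max_right _ _).trans hk1
    have hlz : 2 + Real.log Z ≤ 2 * (1 + Real.log X) := by linarith
    calc 1024 * 8 ^ k * (2 + Real.log Z) * H
        ≤ 1024 * 8 ^ k * (2 * (1 + Real.log X)) * H := by gcongr
      _ = 2048 * 8 ^ k * (1 + Real.log X) * H := by ring
      _ ≤ 4096 * 8 ^ k * (1 + Real.log X) * H := by gcongr; norm_num
      _ ≤ (X : ℝ) ^ (η / 2) * (X : ℝ) ^ η * (X : ℝ) ^ (η / 2) * H := by gcongr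
      _ = H * (X : ℝ) ^ (η / 2 + η + η / 2) := by
          rw [Real.rpow_add hX0, Real.rpow_add hX0]
          ring
      _ ≤ _ := by
          have := Real.rpow_le_rpow_of_exponent_le hXr
            (show η / 2 + η + η / 2 ≤ -η + 4 * η by linarith)
          gcongr
  -- covering
  have hcover : ((Finset.Ioc X' (X' + H)).filter (fun D => IsFund D ∧
      BadT P θ a c (κ + ε) X D)) ⊆ (Finset.range 16).biUnion (fun r => High r) := by
    intro D hD
    obtain ⟨hD1, hD2, hD3⟩ := Finset.mem_filter.1 hD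
    obtain ⟨hDa, hDb⟩ := Finset.mem_Ioc.1 hD1
    rw [Finset.mem_biUnion]
    refine ⟨D % 16, Finset.mem_range.2 (Nat.mod_lt _ (by norm_num)), ?_⟩
    have hDD : D ∈ DD 2 (D % 16) X' ((H : ℝ) / X') := by
      unfold DD
      rw [Finset.mem_filter, Finset.mem_Ioc, floor_H hX'1, Qz_two]
      exact ⟨⟨hDa, hDb⟩, rfl⟩
    by_contra hcon
    have hhigh' : SD D (Q.powersetCard k) (fun _ => 1) ≤ (X : ℝ) ^ (4 * η) *
        (((Q.powersetCard k).card : ℝ) + ((Q.powersetCard k).card : ℝ) ^ 2 *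
          (H / √(X' : ℝ) + Z / √(X' : ℝ)) / H) := by
      by_contra h
      exact hcon (Finset.mem_filter.2 ⟨hDD, not_le.1 h⟩)
    rw [hcardS] at hhigh'
    have hDX : D ≤ 2 * X' := by omega
    have hnb := not_badT hN3 P a c σ w κ η C θ B hC hLone hθpos hB4 hκ0 hκ hcκ hηpos X X' H D Z hD2
      hXH hX'4 hDX hX1 hXX' q1 hZr q3 h20 q6 (by
        have h2C : 4 * C ≤ (X : ℝ) ^ (η / 2) := (le_max_left _ _).trans hk2
        have h1 : 4 + Real.log X ≤ 4 * (1 + Real.log X) := by linarith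
        calc C * (4 + Real.log X) ≤ C * (4 * (1 + Real.log X)) := by gcongr
          _ = (4 * C) * (1 + Real.log X) := by ring
          _ ≤ (X : ℝ) ^ (η / 2) * (X : ℝ) ^ (η / 2) := by gcongr
          _ = _ := hhalf) (by
        have h48 : (48 : ℝ) ≤ (X : ℝ) ^ (η / 2) := (le_max_right _ _).trans hk2
        linarith) hhigh'
    apply hnb
    obtain ⟨K, i1, i2, g1, g2, T, g3, g4⟩ := hD3
    refine ⟨K, i1, i2, g1, g2, T, g3, fun hcon => g4 (hcon.trans ?_)⟩
    have : (X : ℝ) ^ (κ + 8 * η) ≤ (X : ℝ) ^ (κ + ε) :=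
      Real.rpow_le_rpow_of_exponent_le hXr (by linarith)
    gcongr
  have hfin : ((((Finset.range 16).biUnion (fun r => High r)).card : ℕ) : ℝ) ≤
      16 * (H * (X : ℝ) ^ (-η)) := by
    have h1 : (((Finset.range 16).biUnion (fun r => High r)).card : ℝ) ≤
        ∑ r ∈ Finset.range 16, ((High r).card : ℝ) := by
      exact_mod_cast Finset.card_biUnion_le
    refine h1.trans ?_
    have h2 : ∀ r ∈ Finset.range 16, ((High r).card : ℝ) ≤ H * (X : ℝ) ^ (-η) := by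
      intro r hr
      have hr' : r < Qz 2 := by rw [Qz_two]; exact Finset.mem_range.1 hr
      exact hHigh r hr'
    refine (Finset.sum_le_sum h2).trans ?_
    rw [Finset.sum_const, Finset.card_range, nsmul_eq_mul]
    push_cast
    linarith
  have hcard : (((Finset.Ioc X' (X' + H)).filter (fun D => IsFund D ∧
      BadT P θ a c (κ + ε) X D)).card : ℝ) ≤
      ((((Finset.range 16).biUnion (fun r => High r)).card : ℕ) : ℝ) := by
    exact_mod_cast Finset.card_le_card hcover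
  refine hcard.trans (hfin.trans ?_)
  have h48 : (48 : ℝ) ≤ (X : ℝ) ^ (η / 2) := (le_max_right _ _).trans hk2
  calc 16 * (H * (X : ℝ) ^ (-η)) ≤ (X : ℝ) ^ (η / 2) * (H * (X : ℝ) ^ (-η)) := by
        gcongr
        linarith
    _ = H * ((X : ℝ) ^ (η / 2) * (X : ℝ) ^ (-η)) := by ring
    _ = H * (X : ℝ) ^ (-(η / 2)) := by
        rw [← Real.rpow_add hX0]
        congr 2
        ring

end Pool.Agent.P8H9.OP
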