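import Pool.Agent.N386.SP.NUM

/-!
# Products of prime ideals whose classes are in a given set

The energy inequality for the ideal classes (`nf_classes`, starting files) and Cauchy-Schwarz: if `Q'` is a set
of primes of `Q` each of which is the norm of an ideal with class in `T`, the number of the products of at most
`k` elements of `T` is large.
-/

set_option autoImplicit false

namespace Pool.Agent.P8H9.OP

open Finset Filter NumberField Pool.Agent.H38R2.CG Pool.Agent.H38R2.CG2 Pool.Agent.H38R2.CG3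
open scoped Classical

/-- the products of at most `n` elements of `T` -/
def Prods {G : Type} [CommGroup G] (T : Set G) (n : ℝ) : Set G :=
  {c | ∃ L : Multiset G, (∀ x ∈ L, x ∈ T) ∧ (L.card : ℝ) ≤ n ∧ L.prod = c}

theorem numT (K : Type) [Field K] [NumberField K] (D : ℕ) (hD : IsFund D)
    (h2 : Module.finrank ℚ K = 2) (hK : NumberField.discr K = (D : ℤ)) (Q Q' : Finset ℕ)
    (hQ : ∀ p ∈ Q, p.Prime ∧ p ≠ 2) (hQ' : Q' ⊆ Q) (T : Set (ClassGroup (𝓞 K)))
    (hT : ∀ p ∈ Q', ∃ 𝔭 : nonZeroDivisors (Ideal (𝓞 K)),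
      Ideal.absNorm (𝔭 : Ideal (𝓞 K)) = p ∧ ClassGroup.mk0 𝔭 ∈ T) (k : ℕ) :
    (Nat.card (ClassGroup (𝓞 K)) : ℝ) * ((Q'.card.choose k : ℕ) : ℝ) ^ 2 ≤
      ((Prods T (k : ℝ)).ncard : ℝ) *
        (2 * √(D : ℝ) * Lone D * SD D (Q.powersetCard k) (fun _ => 1)) := by
  have hN0 : P_N0 := T_N0
  have h_P_SPL : P_SPL := T_SPL hN0
  have hN1 : P_N1 := T_N1 h_P_SPL
  have h_P_N2 : P_N2 := T_N2 h_P_SPL
  have h_P_KR : P_KR := T_KR
  have h_P_PV : P_PV := T_PV
  have h_P_N3a : P_N3a := T_N3a h_P_KR h_P_PV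
  have h_P_N3b : P_N3b := T_N3b h_P_KR h_P_PV h_P_N3a
  have hN3 : P_N3 := T_N3 h_P_N2 h_P_N3b
  have h_P_N4a : P_N4a := T_N4a
  have h_P_N4b : P_N4b := T_N4b
  have h4 : P_N4 := T_N4 h_P_N4a h_P_N4b
  have hKF : P_KF := T_KF
  have h5b : P_N5b := T_N5b hKF h4
  have hN6 : P_N6 := T_N6 hKF
  set S := Q.powersetCard k with hS
  have hf : ∀ s ∈ S, (0 : ℝ) ≤ (fun _ : Finset ℕ => (1 : ℝ)) s ∧ ∀ p ∈ s, p.Prime ∧ p ≠ 2 := by
    intro s hs
    exact ⟨zero_le_one, fun p hp => hQ p ((mem_powersetCard.1 hs).1 hp)⟩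
  obtain ⟨hA, -⟩ := nf_classes hN0 hN1 hN3 h4 hKF h5b hN6 K D hD h2 hK S (fun _ => 1) hf
  choose! pp hpp1 hpp2 using hT
  set A1 : Finset (ClassGroup (𝓞 K)) := Finset.univ.filter (fun C => C ∈ Prods T (k : ℝ)) with hA1
  have hcard : (A1.card : ℝ) = ((Prods T (k : ℝ)).ncard : ℝ) := by
    rw [← Set.ncard_coe_finset]
    congr 2
    ext C
    simp [hA1]
  have hlow : ((Q'.card.choose k : ℕ) : ℝ) ≤ ∑ C ∈ A1, MC K S (fun _ => 1) C := by
    unfold MC
    rw [Finset.sum_comm]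
    have hsub : Q'.powersetCard k ⊆ S := Finset.powersetCard_mono hQ'
    have hone : ∀ s ∈ Q'.powersetCard k, (1 : ℝ) ≤ ∑ C ∈ A1, 1 *
        (Nat.card {I : nonZeroDivisors (Ideal (𝓞 K)) //
          Ideal.absNorm (I : Ideal (𝓞 K)) = prodS s ∧ ClassGroup.mk0 I = C} : ℝ) := by
      intro s hs
      obtain ⟨hs1, hs2⟩ := mem_powersetCard.1 hs
      set I0 : nonZeroDivisors (Ideal (𝓞 K)) := ∏ p ∈ s, pp p with hI0
      have hI1 : Ideal.absNorm (I0 : Ideal (𝓞 K)) = prodS s := by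
        rw [hI0, Submonoid.coe_finsetProd, map_prod]
        exact Finset.prod_congr rfl fun p hp => hpp1 p (hs1 hp)
      have hI2 : ClassGroup.mk0 I0 ∈ A1 := by
        rw [hA1, Finset.mem_filter]
        refine ⟨Finset.mem_univ _, ⟨s.val.map (fun p => ClassGroup.mk0 (pp p)), ?_, ?_, ?_⟩⟩
        · intro x hx
          obtain ⟨p, hp, rfl⟩ := Multiset.mem_map.1 hx
          exact hpp2 p (hs1 hp)
        · rw [Multiset.card_map]
          exact_mod_cast hs2.le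
        · rw [hI0, map_prod]
          rfl
      have hpos : 0 < prodS s := Finset.prod_pos fun p hp => (hQ p (hQ' (hs1 hp))).1.pos
      have hfin : Finite {I : nonZeroDivisors (Ideal (𝓞 K)) //
          Ideal.absNorm (I : Ideal (𝓞 K)) = prodS s ∧ ClassGroup.mk0 I = ClassGroup.mk0 I0} := by
        have hfs : Finite {I : Ideal (𝓞 K) | Ideal.absNorm I = prodS s} :=
          (Ideal.finite_setOfPred_absNorm_eq (S := 𝓞 K) (prodS s)).to_subtype
        refine Finite.of_injective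
          (fun J => (⟨(J.1 : Ideal (𝓞 K)), J.2.1⟩ : {I : Ideal (𝓞 K) | Ideal.absNorm I = prodS s})) ?_
        intro J J' h
        have h' : (J.1 : Ideal (𝓞 K)) = (J'.1 : Ideal (𝓞 K)) := Subtype.mk.inj h
        exact Subtype.ext (Subtype.ext h')
      have h1 : (1 : ℝ) ≤ 1 * (Nat.card {I : nonZeroDivisors (Ideal (𝓞 K)) //
          Ideal.absNorm (I : Ideal (𝓞 K)) = prodS s ∧ ClassGroup.mk0 I = ClassGroup.mk0 I0} : ℝ) := by
        rw [one_mul]
        have : Nonempty {I : nonZeroDivisors (Ideal (𝓞 K)) //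
          Ideal.absNorm (I : Ideal (𝓞 K)) = prodS s ∧ ClassGroup.mk0 I = ClassGroup.mk0 I0} :=
          ⟨⟨I0, hI1, rfl⟩⟩
        exact_mod_cast (Nat.card_pos : 0 < _)
      refine h1.trans ?_
      exact Finset.single_le_sum (f := fun C => 1 * (Nat.card {I : nonZeroDivisors (Ideal (𝓞 K)) //
          Ideal.absNorm (I : Ideal (𝓞 K)) = prodS s ∧ ClassGroup.mk0 I = C} : ℝ))
        (fun C _ => by positivity) hI2
    calc ((Q'.card.choose k : ℕ) : ℝ) = ∑ s ∈ Q'.powersetCard k, (1 : ℝ) := by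
          rw [Finset.sum_const, Finset.card_powersetCard, nsmul_eq_mul, mul_one]
      _ ≤ _ := Finset.sum_le_sum hone
      _ ≤ _ := Finset.sum_le_sum_of_subset_of_nonneg hsub
          fun s _ _ => Finset.sum_nonneg fun C _ => by positivity
  have hch : (0 : ℝ) ≤ ((Q'.card.choose k : ℕ) : ℝ) := Nat.cast_nonneg _
  have hCS : (((Q'.card.choose k : ℕ) : ℝ)) ^ 2 ≤ (A1.card : ℝ) *
      ∑ C : ClassGroup (𝓞 K), (MC K S (fun _ => 1) C) ^ 2 := by
    refine (pow_le_pow_left₀ hch hlow 2).trans ?_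
    refine (sq_sum_le_card_mul_sum_sq (s := A1) (f := fun C => MC K S (fun _ => 1) C)).trans ?_
    refine mul_le_mul_of_nonneg_left ?_ (Nat.cast_nonneg _)
    exact Finset.sum_le_sum_of_subset_of_nonneg (Finset.subset_univ _) fun C _ _ => sq_nonneg _
  have hh : (0 : ℝ) ≤ Nat.card (ClassGroup (𝓞 K)) := Nat.cast_nonneg _
  calc (Nat.card (ClassGroup (𝓞 K)) : ℝ) * (((Q'.card.choose k : ℕ) : ℝ)) ^ 2
      ≤ (Nat.card (ClassGroup (𝓞 K)) : ℝ) * ((A1.card : ℝ) *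
        ∑ C : ClassGroup (𝓞 K), (MC K S (fun _ => 1) C) ^ 2) :=
        mul_le_mul_of_nonneg_left hCS hh
    _ = (A1.card : ℝ) * ((Nat.card (ClassGroup (𝓞 K)) : ℝ) *
        ∑ C : ClassGroup (𝓞 K), (MC K S (fun _ => 1) C) ^ 2) := by ring
    _ ≤ (A1.card : ℝ) * (2 * √(D : ℝ) * Lone D * SD D S (fun _ => 1)) :=
        mul_le_mul_of_nonneg_left hA (Nat.cast_nonneg _)
    _ = _ := by rw [hcard]

end Pool.Agent.P8H9.OP
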