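import Pool.Agent.N71.SI.FinA
import Pool.Agent.P8H9.OP.Num

/-!
# Few exceptional discriminants
-/

set_option autoImplicit false

namespace Pool.Agent.P8H9.OP

open Finset Filter NumberField Pool.Agent.H38R2.CG Pool.Agent.H38R2.CG2 Pool.Agent.N71.SP
open Pool.Agent.N71.SI (high_cardH parG floor_H)
open Pool.Agent.R345.IX (SD_nonneg Qz_two Lone_le)
open scoped Classical

/-- the proportion `θ` of the primes of the window are norms of ideals with class in `T` -/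
def Share (K : Type) [Field K] [NumberField K] (Q : Finset ℕ) (θ : ℝ)
    (T : Set (ClassGroup (𝓞 K))) : Prop :=
  θ * Q.card ≤ ((Q.filter (fun p => ∃ 𝔭 : nonZeroDivisors (Ideal (𝓞 K)),
    Ideal.absNorm (𝔭 : Ideal (𝓞 K)) = p ∧ ClassGroup.mk0 𝔭 ∈ T)).card : ℝ)

/-- the exceptional discriminants -/
def BadT (P : Set ℕ) (θ a c e : ℝ) (X D : ℕ) : Prop :=
  ∃ (K : Type) (_ : Field K) (_ : NumberField K),
  Module.finrank ℚ K = 2 ∧ NumberField.discr K = (D : ℤ) ∧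
    ∃ T : Set (ClassGroup (𝓞 K)), Share K (QQ P (yS a X)) θ T ∧
    ¬ ((Nat.card (ClassGroup (𝓞 K)) : ℝ) ≤
      (X : ℝ) ^ e * ((Prods T (kS a c X : ℝ)).ncard : ℝ))

/-- binomial coefficients of a proportion -/
theorem choose_share {m q k : ℕ} {θ : ℝ} (hθ0 : 0 < θ) (hm : θ * q ≤ m) (hk : 2 * (k : ℝ) ≤ θ * q) :
    (θ / 2) ^ k * ((q.choose k : ℕ) : ℝ) ≤ ((m.choose k : ℕ) : ℝ) := by
  have h1 : ∀ j : ℕ, j ≤ k → (θ / 2) ^ j * ((q.descFactorial j : ℕ) : ℝ) ≤ ((m.descFactorial j : ℕ) : ℝ) := by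
    intro j
    induction j with
    | zero => intro _; simp
    | succ j ih =>
      intro hj
      have ih' := ih (by omega)
      have hjr : (j : ℝ) ≤ k := by exact_mod_cast (by omega : j ≤ k)
      have hjm : j ≤ m := by
        have : (j : ℝ) ≤ m := by
          have : (0 : ℝ) ≤ k := Nat.cast_nonneg _
          linarith
        exact_mod_cast this
      rw [Nat.descFactorial_succ, Nat.descFactorial_succ, Nat.cast_mul, Nat.cast_mul, pow_succ]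
      have h2 : θ / 2 * ((q - j : ℕ) : ℝ) ≤ ((m - j : ℕ) : ℝ) := by
        rw [Nat.cast_sub hjm]
        have h3 : ((q - j : ℕ) : ℝ) ≤ q := by exact_mod_cast Nat.sub_le q j
        have h4 : θ / 2 * ((q - j : ℕ) : ℝ) ≤ θ / 2 * q := by gcongr
        linarith
      have h5 : (0 : ℝ) ≤ θ / 2 * ((q - j : ℕ) : ℝ) := by positivity
      have h6 : (0 : ℝ) ≤ ((m.descFactorial j : ℕ) : ℝ) := Nat.cast_nonneg _
      calc (θ / 2) ^ j * (θ / 2) * (((q - j : ℕ) : ℝ) * ((q.descFactorial j : ℕ) : ℝ))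
          = (θ / 2 * ((q - j : ℕ) : ℝ)) * ((θ / 2) ^ j * ((q.descFactorial j : ℕ) : ℝ)) := by ring
        _ ≤ (θ / 2 * ((q - j : ℕ) : ℝ)) * ((m.descFactorial j : ℕ) : ℝ) := by gcongr
        _ ≤ ((m - j : ℕ) : ℝ) * ((m.descFactorial j : ℕ) : ℝ) := by gcongr
  have h7 := h1 k le_rfl
  rw [Nat.descFactorial_eq_factorial_mul_choose, Nat.descFactorial_eq_factorial_mul_choose] at h7
  push_cast at h7
  have hf : (0 : ℝ) < ((k.factorial : ℕ) : ℝ) := by exact_mod_cast k.factorial_pos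
  have h8 : ((k.factorial : ℕ) : ℝ) * ((θ / 2) ^ k * ((q.choose k : ℕ) : ℝ)) ≤
      ((k.factorial : ℕ) : ℝ) * ((m.choose k : ℕ) : ℝ) := by
    calc _ = (θ / 2) ^ k * (((k.factorial : ℕ) : ℝ) * ((q.choose k : ℕ) : ℝ)) := by ring
      _ ≤ _ := h7
  exact le_of_mul_le_mul_left h8 hf

/-- the deterministic part: the discriminants with a small near collision sum are not bad -/
theorem not_badT (hN3 : P_N3) (P : Set ℕ) (a c σ w κ η C θ B : ℝ) (hC : 0 < C)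
    (hLone : ∀ D : ℕ, IsFund D → Lone D ≤ C * (1 + Real.log D))
    (hθpos : 0 < θ) (hBθ : 4 / θ ^ 2 ≤ B)
    (hκ0 : 0 ≤ κ) (hκ : 1 / 2 - c * (σ - 1 / a) ≤ κ) (hcκ : c - w ≤ κ) (hη : 0 < η)
    (X X' H D Z : ℕ) (hD : IsFund D)
    (hXH : (X : ℝ) ^ w ≤ H) (hX' : X' ≤ 4 * X)
    (hDX : D ≤ 2 * X') (hX : 1 ≤ X) (hXX' : X ≤ X') (hy : 2 ≤ yS a X) (hZ : (Z : ℝ) ≤ (X : ℝ) ^ c)
    (hB : B ^ (kS a c X) ≤ (X : ℝ) ^ η)
    (h20 : 2 * (kS a c X : ℝ) ≤ θ * (QQ P (yS a X)).card)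
    (hM : (X : ℝ) ^ (c * (σ - 1 / a) - η) ≤ ((QQ P (yS a X)).card.choose (kS a c X) : ℝ))
    (hL2 : C * (4 + Real.log X) ≤ (X : ℝ) ^ η) (h8 : 24 ≤ (X : ℝ) ^ η)
    (hhigh : SD D ((QQ P (yS a X)).powersetCard (kS a c X)) (fun _ => 1) ≤ (X : ℝ) ^ (4 * η) *
      (((QQ P (yS a X)).card.choose (kS a c X) : ℝ) +
        ((QQ P (yS a X)).card.choose (kS a c X) : ℝ) ^ 2 *
          (H / √(X' : ℝ) + Z / √(X' : ℝ)) / H)) :
    ¬ BadT P θ a c (κ + 8 * η) X D := by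
  rintro ⟨K, i1, i2, h2, hK, T, hshare, hne⟩
  apply hne
  have hXr : (1 : ℝ) ≤ X := by exact_mod_cast hX
  have hX0 : (0 : ℝ) < X := by linarith
  have hX'r : (X : ℝ) ≤ X' := by exact_mod_cast hXX'
  have hX'4 : (X' : ℝ) ≤ 4 * X := by exact_mod_cast hX'
  have hX'0 : (0 : ℝ) < X' := by linarith
  have hH0 : (0 : ℝ) < H := lt_of_lt_of_le (Real.rpow_pos_of_pos hX0 _) hXH
  have hsX' : 0 < √(X' : ℝ) := Real.sqrt_pos.2 hX'0
  have hlogX : 0 ≤ Real.log X := Real.log_natCast_nonneg X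
  set Q := QQ P (yS a X) with hQ
  set k := kS a c X with hk
  set M : ℝ := (Q.card.choose k : ℝ) with hMdef
  have hPm : ∀ p ∈ Q, p.Prime ∧ p ≠ 2 := by
    intro p hp
    obtain ⟨h1, h2, h3, h4⟩ := QQ_mem hy hp
    exact ⟨h1, h2⟩
  set Q' := Q.filter (fun p => ∃ 𝔭 : nonZeroDivisors (Ideal (𝓞 K)),
    Ideal.absNorm (𝔭 : Ideal (𝓞 K)) = p ∧ ClassGroup.mk0 𝔭 ∈ T) with hQ'
  have hR := numT K D hD h2 hK Q Q' hPm (Finset.filter_subset _ _) T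
    (fun p hp => (Finset.mem_filter.1 hp).2) k
  have hMD : (θ / 2) ^ k * M ≤ ((Q'.card.choose k : ℕ) : ℝ) := choose_share hθpos hshare h20
  set R : ℝ := ((Prods T (k : ℝ)).ncard : ℝ) with hRdef
  set h : ℝ := (Nat.card (ClassGroup (𝓞 K)) : ℝ) with hh
  set sd := SD D (Q.powersetCard k) (fun _ => 1) with hsd
  have hR0 : 0 ≤ R := Nat.cast_nonneg _
  have hh0 : 0 ≤ h := Nat.cast_nonneg _
  have hM0 : 0 < M := lt_of_lt_of_le (Real.rpow_pos_of_pos hX0 _) hM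
  have hsd0 : 0 ≤ sd := SD_nonneg D _
  have hD1 : 1 < D := hD.1
  have hDr : (1 : ℝ) < D := by exact_mod_cast hD1
  have hDX' : (D : ℝ) ≤ 2 * X' := by exact_mod_cast hDX
  have hlogD : Real.log D ≤ 3 + Real.log X := by
    have h1 : Real.log D ≤ Real.log (8 * X) := Real.log_le_log (by linarith) (by linarith)
    rw [Real.log_mul (by norm_num) hX0.ne'] at h1
    have h8l : Real.log 8 ≤ 3 := by
      have : Real.log 8 = 3 * Real.log 2 := by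
        rw [show (8 : ℝ) = 2 ^ 3 by norm_num, Real.log_pow]; norm_num
      rw [this]
      have := Real.log_two_lt_d9
      linarith
    linarith
  have hL0 : 0 ≤ Lone D := (hN3 K D hD h2 hK).1
  have hL : Lone D ≤ (X : ℝ) ^ η := by
    refine (hLone D hD).trans (le_trans ?_ hL2)
    apply mul_le_mul_of_nonneg_left _ hC.le
    linarith
  have hsD : √(D : ℝ) ≤ 2 * √(X' : ℝ) := by
    rw [Real.sqrt_le_left (by positivity), mul_pow, Real.sq_sqrt hX'0.le]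
    linarith
  have hXη : 0 < (X : ℝ) ^ η := Real.rpow_pos_of_pos hX0 _
  have hX4η : 0 < (X : ℝ) ^ (4 * η) := Real.rpow_pos_of_pos hX0 _
  have hZ0 : (0 : ℝ) ≤ Z := Nat.cast_nonneg _
  have hθ2 : 0 < (θ / 2) ^ k := by positivity
  have hB0 : 0 ≤ B := le_trans (by positivity) hBθ
  have hBk : 1 ≤ B ^ k * ((θ / 2) ^ k) ^ 2 := by
    have e1 : (4 / θ ^ 2) ^ k * ((θ / 2) ^ k) ^ 2 = 1 := by
      rw [← pow_mul, mul_comm k 2, pow_mul, ← mul_pow]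
      have : 4 / θ ^ 2 * (θ / 2) ^ 2 = 1 := by
        field_simp
        norm_num
      rw [this, one_pow]
    calc (1 : ℝ) = (4 / θ ^ 2) ^ k * ((θ / 2) ^ k) ^ 2 := e1.symm
      _ ≤ _ := by gcongr
  -- the inequality for h
  have h1 : h * M ^ 2 ≤ B ^ k * (R * (2 * (2 * √(X' : ℝ)) * (X : ℝ) ^ η *
      ((X : ℝ) ^ (4 * η) * (M + M ^ 2 * (H / √(X' : ℝ) + Z / √(X' : ℝ)) / H)))) := by
    calc h * M ^ 2 ≤ (B ^ k * ((θ / 2) ^ k) ^ 2) * (h * M ^ 2) :=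
          le_mul_of_one_le_left (by positivity) hBk
      _ = B ^ k * (h * ((θ / 2) ^ k * M) ^ 2) := by ring
      _ ≤ B ^ k * (h * ((Q'.card.choose k : ℕ) : ℝ) ^ 2) := by gcongr
      _ ≤ B ^ k * (R * (2 * √(D : ℝ) * Lone D * sd)) := by gcongr
      _ ≤ _ := by gcongr
  have h3 : h ≤ B ^ k * R * 4 * (X : ℝ) ^ η * (X : ℝ) ^ (4 * η) *
      (√(X' : ℝ) / M + 1 + Z / H) := by
    have hM2 : 0 < M ^ 2 := by positivity
    refine le_of_mul_le_mul_right (h1.trans (le_of_eq ?_)) hM2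
    have e1 : (√(X' : ℝ) / M + 1 + Z / H) * M ^ 2 =
        √(X' : ℝ) * (M + M ^ 2 * (H / √(X' : ℝ) + Z / √(X' : ℝ)) / H) := by
      have e2 : √(X' : ℝ) * (H / √(X' : ℝ) + Z / √(X' : ℝ)) = H + Z := by
        field_simp
      have e3 : √(X' : ℝ) * (M + M ^ 2 * (H / √(X' : ℝ) + Z / √(X' : ℝ)) / H) =
          √(X' : ℝ) * M + M ^ 2 * (√(X' : ℝ) * (H / √(X' : ℝ) + Z / √(X' : ℝ))) / H := by ring
      rw [e3, e2]
      field_simp
      ring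
    calc B ^ k * (R * (2 * (2 * √(X' : ℝ)) * (X : ℝ) ^ η *
          ((X : ℝ) ^ (4 * η) * (M + M ^ 2 * (H / √(X' : ℝ) + Z / √(X' : ℝ)) / H))))
        = B ^ k * R * 4 * (X : ℝ) ^ η * (X : ℝ) ^ (4 * η) *
          (√(X' : ℝ) * (M + M ^ 2 * (H / √(X' : ℝ) + Z / √(X' : ℝ)) / H)) := by ring
      _ = _ := by rw [← e1]; ring
  have hsq : √(X' : ℝ) ≤ 2 * √(X : ℝ) := by
    rw [Real.sqrt_le_left (by positivity), mul_pow, Real.sq_sqrt hX0.le]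
    linarith
  have h4' : √(X' : ℝ) / M ≤ 2 * (X : ℝ) ^ (κ + η) := by
    rw [div_le_iff₀ hM0]
    calc √(X' : ℝ) ≤ 2 * √(X : ℝ) := hsq
      _ = 2 * (X : ℝ) ^ (1 / 2 : ℝ) := by rw [Real.sqrt_eq_rpow]
      _ ≤ 2 * (X : ℝ) ^ ((κ + η) + (c * (σ - 1 / a) - η)) := by
          have := Real.rpow_le_rpow_of_exponent_le hXr
            (show (1 / 2 : ℝ) ≤ (κ + η) + (c * (σ - 1 / a) - η) by linarith)
          linarith
      _ = 2 * ((X : ℝ) ^ (κ + η) * (X : ℝ) ^ (c * (σ - 1 / a) - η)) := by rw [Real.rpow_add hX0]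
      _ ≤ 2 * ((X : ℝ) ^ (κ + η) * M) := by gcongr
      _ = _ := by ring
  have h5 : (1 : ℝ) ≤ 2 * (X : ℝ) ^ (κ + η) := by
    have := Real.one_le_rpow hXr (show 0 ≤ κ + η by linarith)
    linarith
  have h6 : (Z : ℝ) / H ≤ 2 * (X : ℝ) ^ (κ + η) := by
    have h6' : (Z : ℝ) / H ≤ (X : ℝ) ^ (κ + η) := by
      rw [div_le_iff₀ hH0]
      calc (Z : ℝ) ≤ (X : ℝ) ^ c := hZ
        _ ≤ (X : ℝ) ^ ((κ + η) + w) := Real.rpow_le_rpow_of_exponent_le hXr (by linarith)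
        _ = (X : ℝ) ^ (κ + η) * (X : ℝ) ^ w := by rw [Real.rpow_add hX0]
        _ ≤ (X : ℝ) ^ (κ + η) * H := by gcongr
    have := Real.rpow_pos_of_pos hX0 (κ + η)
    linarith
  calc h ≤ B ^ k * R * 4 * (X : ℝ) ^ η * (X : ℝ) ^ (4 * η) * (√(X' : ℝ) / M + 1 + Z / H) := h3
    _ ≤ (X : ℝ) ^ η * R * 4 * (X : ℝ) ^ η * (X : ℝ) ^ (4 * η) *
        (2 * (X : ℝ) ^ (κ + η) + 2 * (X : ℝ) ^ (κ + η) + 2 * (X : ℝ) ^ (κ + η)) := by gcongr
    _ = ((X : ℝ) ^ η * (X : ℝ) ^ η * (X : ℝ) ^ (4 * η) * (X : ℝ) ^ (κ + η)) * 24 * R := by ring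
    _ ≤ ((X : ℝ) ^ η * (X : ℝ) ^ η * (X : ℝ) ^ (4 * η) * (X : ℝ) ^ (κ + η)) * (X : ℝ) ^ η * R := by
        gcongr
    _ = (X : ℝ) ^ (κ + 8 * η) * R := by
        rw [← Real.rpow_add hX0, ← Real.rpow_add hX0, ← Real.rpow_add hX0, ← Real.rpow_add hX0]
        congr 2
        ring

end Pool.Agent.P8H9.OP
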