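import Pool.Agent.P8H9.OP.Fin
import Pool.Agent.N704.SP.PAR2
import Pool.Agent.N556.SP.FIN2

/-!
# Every radicand: a proportion of the small primes and the class number, without exceptions
-/

set_option autoImplicit false

namespace Pool.Agent.P8H9.OP

open Finset Filter NumberField Pool.Agent.H38R2.CG Pool.Agent.H38R2.CG2 Pool.Agent.N71.SP
open Pool.Agent.N71.SI (parG)
open Pool.Agent.R345.IX (Dof isFund_Dof SD_nonneg Lone_le)
open scoped Classical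

theorem every (P : Set ℕ) (σ : ℝ) (hσ0 : 0 < σ) (hσ1 : σ ≤ 1) (hP : Many P σ)
    (a : ℝ) (ha : 1 < a * σ) (θ : ℝ) (hθpos : 0 < θ) (ε : ℝ) (hε : 0 < ε) :
    ∃ x0 : ℕ, ∀ x ≥ x0, ∀ d : ℕ, x < d → d ≤ 2 * x → Squarefree d →
      GoodAt P θ a ((1 - σ) / 2 + 1 / (2 * a) + ε) x d := by
  have h_P_N0 : P_N0 := T_N0
  have h_P_N0d : P_N0d := T_N0d
  have h_P_SPL : P_SPL := T_SPL h_P_N0
  have h_P_N2 : P_N2 := T_N2 h_P_SPL
  have h_P_KR : P_KR := T_KR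
  have h_P_PV : P_PV := T_PV
  have h_P_N3a : P_N3a := T_N3a h_P_KR h_P_PV
  have h_P_N3b : P_N3b := T_N3b h_P_KR h_P_PV h_P_N3a
  have hN3 : P_N3 := T_N3 h_P_N2 h_P_N3b
  obtain ⟨C, hC, hLone⟩ := Lone_le h_P_N3a
  have ha0 : 0 < a := by
    by_contra h
    push Not at h
    nlinarith
  have hs : 0 < σ - 1 / a := by
    rw [sub_pos, div_lt_iff₀ ha0]
    linarith
  set s0 : ℝ := 1 / 2 * (σ - 1 / a) with hs0
  have hs0pos : 0 < s0 := by positivity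
  set η : ℝ := min (ε / 5) (s0 / 4) with hη
  have hηpos : 0 < η := lt_min (by positivity) (by positivity)
  have hη1 : η ≤ ε / 5 := min_le_left _ _
  have hη2 : η ≤ s0 / 4 := min_le_right _ _
  set B : ℝ := max 1 (max (2 * (4 / θ ^ 2)) (1 / θ)) with hB
  have hB8 : 1 ≤ B := le_max_left _ _
  have hB4 : 2 * (4 / θ ^ 2) ≤ B := (le_max_left _ _).trans (le_max_right _ _)
  have hB1 : 1 / θ ≤ B := (le_max_right _ _).trans (le_max_right _ _)
  rw [← Filter.eventually_atTop]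
  have hpar := parG P σ hσ0 hσ1 hP a (1 / 2) ha (by norm_num) (by norm_num) η B hηpos hB8
  have hpk := Pool.Agent.N704.SP.t_PAR2 P σ hσ0 hσ1 hP a ha η 1 hηpos one_pos
  have hlog1 := ERRh.ev_log (η / 2) (by positivity)
  have hc2' := ERRh.ev_const (η / 2) (by positivity) (max (4 * C) 12)
  have hpar3 := parG P σ hσ0 hσ1 hP a (3 / 2) ha (by norm_num) le_rfl 1 1 one_pos le_rfl
  filter_upwards [hpar, hpk, hlog1, hc2', hpar3, eventually_ge_atTop 2] with X hX hXk hl1 hk2 hX3 hX2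
    d hXd hd2 hsq
  have hX1 : 1 ≤ X := by omega
  obtain ⟨q1, -, q3, -, q5, -, -, q8, -, -⟩ := hX
  obtain ⟨-, -, -, r1, -, r4⟩ := hXk
  obtain ⟨-, -, -, -, -, -, -, -, -, hfin⟩ := hX3
  intro K _ _ h2 hz T hshare
  have hd : 1 < d := by omega
  set D := Dof d with hDdef
  have hD : IsFund D := isFund_Dof hd hsq
  have hK : NumberField.discr K = (D : ℤ) := by
    rw [h_P_N0d K d hd hsq h2 hz, hDdef]
    unfold Dof
    split_ifs <;> push_cast <;> rfl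
  have hXD : X < D := by
    rw [hDdef]; unfold Dof
    split_ifs <;> omega
  have hD8 : D ≤ 8 * X := by
    rw [hDdef]; unfold Dof
    split_ifs <;> omega
  have hXr : (1 : ℝ) ≤ X := by exact_mod_cast hX1
  have hXr2 : (2 : ℝ) ≤ X := by exact_mod_cast hX2
  have hX0 : (0 : ℝ) < X := by linarith
  have hlogX : 0 ≤ Real.log X := Real.log_natCast_nonneg X
  set k := kT a X with hk
  have hkS : k ≤ kS a (1 / 2) X := by rw [hk]; unfold kT; omega
  set Q := QQ P (yS a X) with hQ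
  set M : ℝ := (Q.card.choose k : ℝ) with hMdef
  have hhalf : (X : ℝ) ^ (η / 2) * (X : ℝ) ^ (η / 2) = (X : ℝ) ^ η := by
    rw [← Real.rpow_add hX0]; congr 1; ring
  have hXh : 0 < (X : ℝ) ^ (η / 2) := Real.rpow_pos_of_pos hX0 _
  have hXη : 0 < (X : ℝ) ^ η := Real.rpow_pos_of_pos hX0 _
  have hXhη : (X : ℝ) ^ (η / 2) ≤ (X : ℝ) ^ η := Real.rpow_le_rpow_of_exponent_le hXr (by linarith)
  -- many primes in the window
  have hquot : 1 / θ ≤ ((Q.card / (2 * kS a (1 / 2) X) : ℕ) : ℝ) := by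
    by_contra hcon
    push Not at hcon
    have h1 : (((Q.card / (2 * kS a (1 / 2) X) : ℕ) : ℝ)) ^ (kS a (1 / 2) X) ≤
        B ^ (kS a (1 / 2) X) :=
      pow_le_pow_left₀ (Nat.cast_nonneg _) (hcon.le.trans hB1) _
    have h2 : (X : ℝ) ^ (s0 - η) ≤ (X : ℝ) ^ η := q8.trans (h1.trans q3)
    have h3 : (X : ℝ) ^ η < (X : ℝ) ^ (s0 - η) :=
      Real.rpow_lt_rpow_of_exponent_lt (by linarith) (by linarith)
    linarith
  have h20 : 2 * (k : ℝ) ≤ θ * Q.card := by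
    have h1 : (((2 * kS a (1 / 2) X) * (Q.card / (2 * kS a (1 / 2) X)) : ℕ) : ℝ) ≤ Q.card := by
      exact_mod_cast Nat.mul_div_le _ _
    push_cast at h1
    have h2' : 2 * (kS a (1 / 2) X : ℝ) * (1 / θ) ≤ Q.card := by
      refine le_trans ?_ h1
      exact mul_le_mul_of_nonneg_left (by exact_mod_cast hquot) (by positivity)
    rw [mul_one_div, div_le_iff₀ hθpos] at h2'
    have h3 : (k : ℝ) ≤ kS a (1 / 2) X := by exact_mod_cast hkS
    linarith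
  have hPm : ∀ p ∈ Q, p.Prime ∧ p ≠ 2 ∧ p ≤ 2 * yS a X := by
    intro p hp
    obtain ⟨h1, h2, h3, h4⟩ := QQ_mem q1 hp
    exact ⟨h1, h2, h4⟩
  set Q' := Q.filter (fun p => ∃ 𝔭 : nonZeroDivisors (Ideal (𝓞 K)),
    Ideal.absNorm (𝔭 : Ideal (𝓞 K)) = p ∧ ClassGroup.mk0 𝔭 ∈ T) with hQ'
  have hR := numT K D hD h2 hK Q Q' (fun p hp => ⟨(hPm p hp).1, (hPm p hp).2.1⟩)
    (Finset.filter_subset _ _) T (fun p hp => (Finset.mem_filter.1 hp).2) k
  have hMD : (θ / 2) ^ k * M ≤ ((Q'.card.choose k : ℕ) : ℝ) := choose_share hθpos hshare h20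
  have hSD := Pool.Agent.R345.IY.SD_diag X D k hX1 hXD (Q.powersetCard k) ((2 * yS a X) ^ k) r1 (by
    intro s hs
    obtain ⟨hs1, hs2⟩ := Finset.mem_powersetCard.1 hs
    refine ⟨fun p hp => (hPm p (hs1 hp)).1, hs2, ?_⟩
    unfold prodS
    rw [← hs2]
    exact Finset.prod_le_pow_card _ _ _ fun p hp => (hPm p (hs1 hp)).2.2)
  rw [Finset.card_powersetCard] at hSD
  have hRmono : ((Prods T (k : ℝ)).ncard : ℝ) ≤
      ((Prods T (3 / 2 * (Real.log X / Real.log (Real.log X)))).ncard : ℝ) := by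
    have h3 : (k : ℝ) ≤ 3 / 2 * (Real.log X / Real.log (Real.log X)) := by
      obtain ⟨-, g2⟩ := hfin X (by linarith) (by linarith)
      refine le_trans ?_ g2
      have h4 : 3 * kS a (1 / 2) X ≤ kS a (3 / 2) X := Pool.Agent.N556.SP.kS_third a X
      exact_mod_cast (by omega : k ≤ kS a (3 / 2) X)
    exact_mod_cast Set.ncard_le_ncard (prods_mono h3) (Set.toFinite _)
  refine le_trans ?_ (mul_le_mul_of_nonneg_left hRmono (Real.rpow_nonneg hX0.le _))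
  set R : ℝ := ((Prods T (k : ℝ)).ncard : ℝ) with hRdef
  set h : ℝ := (Nat.card (ClassGroup (𝓞 K)) : ℝ) with hh
  set sd := SD D (Q.powersetCard k) (fun _ => 1) with hsd
  have hR0 : 0 ≤ R := Nat.cast_nonneg _
  have hh0 : 0 ≤ h := Nat.cast_nonneg _
  have hMσ : (X : ℝ) ^ ((σ - 1 / a) / 2 - η) ≤ M := r4
  have hM0 : 0 < M := lt_of_lt_of_le (Real.rpow_pos_of_pos hX0 _) hMσ
  have hsd0 : 0 ≤ sd := SD_nonneg D _
  have hDr : (1 : ℝ) < D := by exact_mod_cast hD.1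
  have hD8r : (D : ℝ) ≤ 8 * X := by exact_mod_cast hD8
  have hlogD : Real.log D ≤ 3 + Real.log X := by
    have h1 : Real.log D ≤ Real.log (8 * X) := Real.log_le_log (by linarith) hD8r
    rw [Real.log_mul (by norm_num) hX0.ne'] at h1
    have h8l : Real.log 8 ≤ 3 := by
      have : Real.log 8 = 3 * Real.log 2 := by
        rw [show (8 : ℝ) = 2 ^ 3 by norm_num, Real.log_pow]; norm_num
      rw [this]
      have := Real.log_two_lt_d9
      linarith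
    linarith
  have hL0 : 0 ≤ Lone D := (hN3 K D hD h2 hK).1
  have hL : Lone D ≤ (X : ℝ) ^ η := by
    have h2C : 4 * C ≤ (X : ℝ) ^ (η / 2) := (le_max_left _ _).trans hk2
    calc Lone D ≤ C * (1 + Real.log D) := hLone D hD
      _ ≤ C * (4 * (1 + Real.log X)) := by
          apply mul_le_mul_of_nonneg_left _ hC.le
          linarith
      _ = (4 * C) * (1 + Real.log X) := by ring
      _ ≤ (X : ℝ) ^ (η / 2) * (X : ℝ) ^ (η / 2) := by gcongr
      _ = _ := hhalf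
  have h12 : (12 : ℝ) ≤ (X : ℝ) ^ η := ((le_max_right _ _).trans hk2).trans hXhη
  have hsD : √(D : ℝ) ≤ 3 * √(X : ℝ) := by
    rw [Real.sqrt_le_left (by positivity), mul_pow, Real.sq_sqrt hX0.le]
    linarith
  have hB0 : 0 ≤ B := by linarith
  have hBk : B ^ k ≤ (X : ℝ) ^ η := (pow_le_pow_right₀ hB8 hkS).trans q3
  have hBk1 : 2 ^ k ≤ B ^ k * ((θ / 2) ^ k) ^ 2 := by
    have e1 : (2 * (4 / θ ^ 2)) ^ k * ((θ / 2) ^ k) ^ 2 = 2 ^ k := by
      rw [← pow_mul, mul_comm k 2, pow_mul, ← mul_pow]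
      congr 1
      field_simp
      norm_num
    calc (2 : ℝ) ^ k = (2 * (4 / θ ^ 2)) ^ k * ((θ / 2) ^ k) ^ 2 := e1.symm
      _ ≤ _ := by gcongr
  -- the inequality for h
  have h1 : h * M ≤ B ^ k * R * (6 * √(X : ℝ) * (X : ℝ) ^ η) := by
    have h2k : (0 : ℝ) < 2 ^ k := by positivity
    refine le_of_mul_le_mul_right (a := 2 ^ k * M) ?_ (by positivity)
    calc h * M * (2 ^ k * M) = 2 ^ k * (h * M ^ 2) := by ring
      _ ≤ (B ^ k * ((θ / 2) ^ k) ^ 2) * (h * M ^ 2) := by gcongr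
      _ = B ^ k * (h * ((θ / 2) ^ k * M) ^ 2) := by ring
      _ ≤ B ^ k * (h * ((Q'.card.choose k : ℕ) : ℝ) ^ 2) := by gcongr
      _ ≤ B ^ k * (R * (2 * √(D : ℝ) * Lone D * sd)) := by gcongr
      _ ≤ B ^ k * (R * (2 * (3 * √(X : ℝ)) * (X : ℝ) ^ η * (2 ^ k * M))) := by gcongr
      _ = _ := by ring
  have h5 : h * (X : ℝ) ^ ((σ - 1 / a) / 2 - η) ≤
      (X : ℝ) ^ η * R * ((X : ℝ) ^ η * (X : ℝ) ^ (1 / 2 : ℝ) * (X : ℝ) ^ η) := by
    calc h * (X : ℝ) ^ ((σ - 1 / a) / 2 - η) ≤ h * M := by gcongr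
      _ ≤ _ := h1
      _ ≤ (X : ℝ) ^ η * R * ((X : ℝ) ^ η * √(X : ℝ) * (X : ℝ) ^ η) := by
          gcongr
          linarith
      _ = _ := by rw [Real.sqrt_eq_rpow]
  have hpos : 0 < (X : ℝ) ^ ((σ - 1 / a) / 2 - η) := Real.rpow_pos_of_pos hX0 _
  have h6 : h ≤ (X : ℝ) ^ ((1 - σ) / 2 + 1 / (2 * a) + 4 * η) * R := by
    refine le_of_mul_le_mul_right (h5.trans (le_of_eq ?_)) hpos
    have e1 : (X : ℝ) ^ ((1 - σ) / 2 + 1 / (2 * a) + 4 * η) * R * (X : ℝ) ^ ((σ - 1 / a) / 2 - η) =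
        ((X : ℝ) ^ ((1 - σ) / 2 + 1 / (2 * a) + 4 * η) * (X : ℝ) ^ ((σ - 1 / a) / 2 - η)) * R := by
      ring
    have e2 : (X : ℝ) ^ η * R * ((X : ℝ) ^ η * (X : ℝ) ^ (1 / 2 : ℝ) * (X : ℝ) ^ η) =
        ((X : ℝ) ^ η * (X : ℝ) ^ η * (X : ℝ) ^ (1 / 2 : ℝ) * (X : ℝ) ^ η) * R := by ring
    rw [e1, e2, ← Real.rpow_add hX0, ← Real.rpow_add hX0, ← Real.rpow_add hX0, ← Real.rpow_add hX0]
    congr 2
    field_simp
    ring
  refine h6.trans (mul_le_mul_of_nonneg_right ?_ hR0)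
  exact Real.rpow_le_rpow_of_exponent_le hXr (by linarith)

end Pool.Agent.P8H9.OP
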