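import Pool.Agent.P8H9.OP.Cnt
import Pool.Agent.R345.IXEnd

/-!
# From discriminants to radicands
-/

set_option autoImplicit false

namespace Pool.Agent.P8H9.OP

open Finset Filter NumberField Pool.Agent.H38R2.CG Pool.Agent.H38R2.CG2 Pool.Agent.N71.SP
open Pool.Agent.N71.SI (parG)
open Pool.Agent.R345.IX (Dof isFund_Dof)
open scoped Classical

theorem prods_mono {G : Type} [CommGroup G] {T : Set G} {n n' : ℝ} (h : n ≤ n') :
    Prods T n ⊆ Prods T n' := by
  rintro c ⟨L, h1, h2, h3⟩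
  exact ⟨L, h1, h2.trans h, h3⟩

/-- the exponent -/
noncomputable def eS (σ a w : ℝ) : ℝ :=
  max 0 ((a - 2 * w * (a * σ - 1)) / (2 * (a * (1 + σ) - 1)))

/-- the property of the radicand `d`, at the scale `x` -/
def GoodAt (P : Set ℕ) (θ a e : ℝ) (x d : ℕ) : Prop :=
  ∀ (K : Type) [Field K] [NumberField K], Module.finrank ℚ K = 2 → (∃ z : K, z ^ 2 = (d : K)) →
    ∀ T : Set (ClassGroup (𝓞 K)), Share K (QQ P (yS a x)) θ T →
      (Nat.card (ClassGroup (𝓞 K)) : ℝ) ≤ (x : ℝ) ^ e *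
        ((Prods T (3 / 2 * (Real.log x / Real.log (Real.log x)))).ncard : ℝ)

/-- all but few radicands in a short interval are good -/
theorem t_OP (P : Set ℕ) (σ : ℝ) (hσ0 : 0 < σ) (hσ1 : σ ≤ 1) (hP : Many P σ)
    (a : ℝ) (ha : 1 < a * σ) (w : ℝ) (hw0 : 0 < w) (hw1 : w ≤ 1) (θ : ℝ) (hθpos : 0 < θ)
    (ε : ℝ) (hε : 0 < ε) :
    ∃ δ : ℝ, 0 < δ ∧ δ ≤ 1 ∧ ∃ x0 : ℕ, ∀ x ≥ x0, ∀ H : ℕ, (x : ℝ) ^ w ≤ H → H ≤ x →
      (((Finset.Ioc x (x + H)).filter (fun d => Squarefree d ∧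
        ¬ GoodAt P θ a (eS σ a w + ε) x d)).card : ℝ) ≤ 5 * (H * (x : ℝ) ^ (-δ)) := by
  have h_P_N0 : P_N0 := T_N0
  have h_P_N0d : P_N0d := T_N0d
  have h_P_SPL : P_SPL := T_SPL h_P_N0
  have h_P_N2 : P_N2 := T_N2 h_P_SPL
  have h_P_KR : P_KR := T_KR
  have h_P_PV : P_PV := T_PV
  have h_P_N3a : P_N3a := T_N3a h_P_KR h_P_PV
  have h_P_N3b : P_N3b := T_N3b h_P_KR h_P_PV h_P_N3a
  have h_P_N3 : P_N3 := T_N3 h_P_N2 h_P_N3b
  have ha0 : 0 < a := by
    by_contra h
    push Not at h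
    nlinarith
  set θ0 : ℝ := (a - 2 * w * (a * σ - 1)) / (2 * (a * (1 + σ) - 1)) with hθ0
  have hσle : 1 < a := by nlinarith
  have hden : 0 < 2 * (a * (1 + σ) - 1) := by nlinarith
  set κ : ℝ := eS σ a w with hκ
  have hκnn : 0 ≤ κ := le_max_left _ _
  have hwa : 0 ≤ w * (a * σ - 1) := mul_nonneg hw0.le (by linarith)
  have hκhalf : κ ≤ 1 / 2 := by
    apply max_le (by norm_num)
    rw [div_le_iff₀ hden]
    nlinarith
  set c : ℝ := w + κ with hc
  have hc0 : 0 < c := by linarith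
  have hc2 : c ≤ 3 / 2 := by linarith
  have hmain : 1 / 2 - c * (σ - 1 / a) ≤ κ := by
    have hs : 0 < σ - 1 / a := by
      rw [sub_pos, div_lt_iff₀ ha0]
      linarith
    have key : θ0 * (2 * (a * (1 + σ) - 1)) = a - 2 * w * (a * σ - 1) := by
      rw [hθ0, div_mul_cancel₀ _ hden.ne']
    have h1 : 1 / 2 - w * (σ - 1 / a) = θ0 * (1 + (σ - 1 / a)) := by
      have ha' : a ≠ 0 := ha0.ne'
      field_simp
      linarith
    have h2 : θ0 * (1 + (σ - 1 / a)) ≤ κ * (1 + (σ - 1 / a)) :=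
      mul_le_mul_of_nonneg_right (le_max_right _ _) (by linarith)
    have h3 : c * (σ - 1 / a) = w * (σ - 1 / a) + κ * (σ - 1 / a) := by rw [hc]; ring
    rw [h3]
    linarith
  obtain ⟨δ, hδ, hδ2, X0, hX0⟩ := count_badT h_P_N3 h_P_N3a P σ hσ0 hσ1 hP a
    ha c w κ θ hc0 hc2 hθpos hκnn hmain (by rw [hc]; linarith) ε hε
  obtain ⟨X1, hX1⟩ := Filter.eventually_atTop.1
    (parG P σ hσ0 hσ1 hP a c ha hc0 hc2 1 1 one_pos le_rfl)
  -- a bad radicand gives a bad discriminant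
  have key : ∀ Y : ℕ, X1 ≤ Y → 1 ≤ Y → ∀ d : ℕ, Y < d →
      Squarefree d → ¬ GoodAt P θ a (κ + ε) Y d →
      IsFund (Dof d) ∧ BadT P θ a c (κ + ε) Y (Dof d) := by
    intro Y hXY hY1 d hd1 hsq hbad
    have hd : 1 < d := by omega
    refine ⟨isFund_Dof hd hsq, ?_⟩
    unfold GoodAt at hbad
    push Not at hbad
    obtain ⟨K, i1, i2, h2, hx, T, hT, hlt⟩ := hbad
    refine ⟨K, i1, i2, h2, ?_, T, hT, ?_⟩
    · rw [h_P_N0d K d hd hsq h2 hx]
      unfold Dof
      split_ifs <;> push_cast <;> rfl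
    · intro hle
      refine absurd hle (not_le.2 (lt_of_le_of_lt ?_ hlt))
      obtain ⟨-, -, -, -, -, -, -, -, -, hfin⟩ := hX1 Y hXY
      have hYr : (0 : ℝ) < Y := by exact_mod_cast hY1
      obtain ⟨-, g2⟩ := hfin Y (by linarith) (by linarith)
      have hcard : ((Prods T (kS a c Y : ℝ)).ncard : ℝ) ≤
          ((Prods T (3 / 2 * (Real.log Y / Real.log (Real.log Y)))).ncard : ℝ) := by
        exact_mod_cast Set.ncard_le_ncard (prods_mono g2) (Set.toFinite _)
      exact mul_le_mul_of_nonneg_left hcard (Real.rpow_nonneg hYr.le _)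
  refine ⟨δ, hδ, hδ2, max (max X0 X1) 1, ?_⟩
  intro Y hY H hYH hHY
  have hY0 : X0 ≤ Y := le_trans (le_trans (le_max_left _ _) (le_max_left _ _)) hY
  have hY1 : X1 ≤ Y := le_trans (le_trans (le_max_right _ _) (le_max_left _ _)) hY
  have hY3 : 1 ≤ Y := le_trans (le_max_right _ _) hY
  have hYr : (0 : ℝ) < Y := by exact_mod_cast hY3
  set S := (Finset.Ioc Y (Y + H)).filter (fun d => Squarefree d ∧ ¬ GoodAt P θ a (κ + ε) Y d)
    with hS
  set A := (Finset.Ioc Y (Y + H)).filter (fun D => IsFund D ∧ BadT P θ a c (κ + ε) Y D)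
    with hA
  set B := (Finset.Ioc (4 * Y) (4 * Y + 4 * H)).filter
    (fun D => IsFund D ∧ BadT P θ a c (κ + ε) Y D) with hB
  have hA' := hX0 Y hY0 Y H le_rfl (by omega) hYH hHY
  have h4H : (Y : ℝ) ^ w ≤ ((4 * H : ℕ) : ℝ) := by
    push_cast
    have : (0 : ℝ) ≤ H := Nat.cast_nonneg _
    linarith
  have hB' := hX0 Y hY0 (4 * Y) (4 * H) (by omega) le_rfl h4H (by omega)
  have hinj : S.card ≤ (A ∪ B).card := by
    refine Finset.card_le_card_of_injOn Dof ?_ ?_
    · intro d hd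
      rw [Finset.mem_coe] at hd ⊢
      obtain ⟨h1, h2, h3⟩ := Finset.mem_filter.1 hd
      obtain ⟨h4, h5⟩ := Finset.mem_Ioc.1 h1
      have hk := key Y hY1 hY3 d h4 h2 h3
      rw [Finset.mem_union]
      by_cases h : d % 4 = 1
      · left
        have hDof : Dof d = d := by unfold Dof; rw [if_pos h]
        rw [hA, Finset.mem_filter, Finset.mem_Ioc]
        exact ⟨by rw [hDof]; exact ⟨h4, h5⟩, hk⟩
      · right
        have hDof : Dof d = 4 * d := by unfold Dof; rw [if_neg h]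
        rw [hB, Finset.mem_filter, Finset.mem_Ioc]
        exact ⟨by rw [hDof]; omega, hk⟩
    · intro d _ d' _ hdd
      unfold Dof at hdd
      split_ifs at hdd <;> omega
  have h1 : (S.card : ℝ) ≤ A.card + B.card := by
    exact_mod_cast hinj.trans (Finset.card_union_le _ _)
  have h4 : ((4 * H : ℕ) : ℝ) * (Y : ℝ) ^ (-δ) = 4 * (H * (Y : ℝ) ^ (-δ)) := by
    push_cast
    ring
  rw [h4] at hB'
  linarith

/-! ### Counting products -/

section
variable {G : Type} [CommGroup G]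

theorem prod_coset {T : Set G} (U : Subgroup G) (g : G) (hT : ∀ t ∈ T, g⁻¹ * t ∈ U) (L : Multiset G)
    (hL : ∀ x ∈ L, x ∈ T) : (g ^ (Multiset.card L))⁻¹ * L.prod ∈ U := by
  induction L using Multiset.induction_on with
  | empty => simp [U.one_mem]
  | cons x L ih =>
    have h1 := ih fun y hy => hL y (Multiset.mem_cons_of_mem hy)
    have h2 := hT x (hL x (Multiset.mem_cons_self x L))
    rw [Multiset.card_cons, Multiset.prod_cons, pow_succ]
    have : (g ^ Multiset.card L * g)⁻¹ * (x * L.prod) =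
        (g⁻¹ * x) * ((g ^ Multiset.card L)⁻¹ * L.prod) := by
      rw [mul_inv]
      simp only [mul_assoc, mul_comm, mul_left_comm]
    rw [this]
    exact U.mul_mem h2 h1

theorem ncard_coset [Finite G] {T : Set G} (U : Subgroup G) (g : G) (hT : ∀ t ∈ T, g⁻¹ * t ∈ U)
    (n : ℝ) : (Prods T n).ncard ≤ (⌊n⌋₊ + 1) * Nat.card U := by
  have : Fintype G := Fintype.ofFinite G
  set W : Finset G := ((Finset.range (⌊n⌋₊ + 1)) ×ˢ (Finset.univ : Finset U)).image
    (fun q => g ^ q.1 * (q.2 : G)) with hW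
  have hsub : Prods T n ⊆ (W : Set G) := by
    rintro c ⟨L, h1, h2, rfl⟩
    rw [hW, Finset.coe_image]
    refine ⟨(Multiset.card L, ⟨_, prod_coset U g hT L h1⟩), ?_, ?_⟩
    · rw [Finset.mem_coe, Finset.mem_product, Finset.mem_range]
      exact ⟨Nat.lt_succ_of_le (Nat.le_floor h2), Finset.mem_univ _⟩
    · simp
  calc (Prods T n).ncard ≤ (W : Set G).ncard := Set.ncard_le_ncard hsub (Set.toFinite _)
    _ = W.card := Set.ncard_coe_finset _
    _ ≤ ((Finset.range (⌊n⌋₊ + 1)) ×ˢ (Finset.univ : Finset U)).card := Finset.card_image_le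
    _ = _ := by
        rw [Finset.card_product, Finset.card_range, Finset.card_univ, Nat.card_eq_fintype_card]

theorem ncard_few [Finite G] (T : Set G) (n : ℝ) :
    (Prods T n).ncard ≤ 2 ^ (T.ncard + ⌊n⌋₊) := by
  have : Fintype G := Fintype.ofFinite G
  set N := ⌊n⌋₊ with hN
  set T' : Set G := insert 1 T with hT'
  have hsub : Prods T n ⊆ Set.range
      (fun s : Sym T' N => (Multiset.map (Subtype.val : T' → G) s.1).prod) := by
    rintro c ⟨L, h1, h2, rfl⟩
    have h3 : Multiset.card L ≤ N := Nat.le_floor h2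
    have h4 : ∀ x ∈ L, x ∈ T' := fun x hx => Set.mem_insert_of_mem _ (h1 x hx)
    let Lt : Multiset T' := L.attach.map (fun x : {y // y ∈ L} => (⟨x.1, h4 x.1 x.2⟩ : T')) +
      Multiset.replicate (N - Multiset.card L) (⟨1, Set.mem_insert _ _⟩ : T')
    have hLt : Multiset.card Lt = N := by
      change Multiset.card (L.attach.map (fun x : {y // y ∈ L} => (⟨x.1, h4 x.1 x.2⟩ : T')) +
        Multiset.replicate (N - Multiset.card L) (⟨1, Set.mem_insert _ _⟩ : T')) = N
      rw [Multiset.card_add, Multiset.card_map, Multiset.card_attach, Multiset.card_replicate]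
      omega
    refine ⟨⟨Lt, hLt⟩, ?_⟩
    change (Multiset.map (Subtype.val : T' → G)
      (L.attach.map (fun x : {y // y ∈ L} => (⟨x.1, h4 x.1 x.2⟩ : T')) +
      Multiset.replicate (N - Multiset.card L) (⟨1, Set.mem_insert _ _⟩ : T'))).prod = _
    rw [Multiset.map_add, Multiset.prod_add, Multiset.map_map, Multiset.map_replicate,
      Multiset.prod_replicate, one_pow, mul_one]
    change (L.attach.map (fun x : {y // y ∈ L} => x.1)).prod = _
    rw [Multiset.attach_map_val]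
  have h5 : (Prods T n).ncard ≤ Nat.card (Sym T' N) := by
    refine (Set.ncard_le_ncard hsub (Set.toFinite _)).trans ?_
    rw [← Set.image_univ]
    refine (Set.ncard_image_le (Set.toFinite _)).trans ?_
    rw [Set.ncard_univ]
  refine h5.trans ?_
  have h6 : Nat.card (Sym T' N) = (Fintype.card T').multichoose N := by
    rw [Nat.card_eq_fintype_card, Sym.card_sym_eq_multichoose]
  rw [h6, Nat.multichoose_eq]
  have h7 : Fintype.card T' ≤ T.ncard + 1 := by
    rw [← Nat.card_eq_fintype_card]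
    exact (Set.ncard_insert_le 1 T)
  refine (Nat.choose_le_two_pow _ _).trans ?_
  exact Nat.pow_le_pow_right (by norm_num) (by omega)

end

end Pool.Agent.P8H9.OP
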