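import Pool.Agent.P8H9.OP.Fin

/-!
# The exact number of factors, and sets of a power of `log x` classes
-/

set_option autoImplicit false

namespace Pool.Agent.P8H9.OP

open Finset Filter NumberField Pool.Agent.H38R2.CG Pool.Agent.H38R2.CG2 Pool.Agent.N71.SP
open Pool.Agent.N71.SI (parG)
open Pool.Agent.R345.IX (Dof isFund_Dof)
open scoped Classical

/-- the property of the radicand `d`, at the scale `x`, with the exact number of factors -/
def GoodK (P : Set ℕ) (θ a c e : ℝ) (x d : ℕ) : Prop :=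
  ∀ (K : Type) [Field K] [NumberField K], Module.finrank ℚ K = 2 → (∃ z : K, z ^ 2 = (d : K)) →
    ∀ T : Set (ClassGroup (𝓞 K)), Share K (QQ P (yS a x)) θ T →
      (Nat.card (ClassGroup (𝓞 K)) : ℝ) ≤ (x : ℝ) ^ e * ((Prods T (kS a c x : ℝ)).ncard : ℝ)

/-- all but few radicands in a short interval are good -/
theorem t_OPk (P : Set ℕ) (σ : ℝ) (hσ0 : 0 < σ) (hσ1 : σ ≤ 1) (hP : Many P σ)
    (a : ℝ) (ha : 1 < a * σ) (w : ℝ) (hw0 : 0 < w) (hw1 : w ≤ 1) (θ : ℝ) (hθpos : 0 < θ)
    (ε : ℝ) (hε : 0 < ε) :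
    ∃ δ : ℝ, 0 < δ ∧ δ ≤ 1 ∧ ∃ x0 : ℕ, ∀ x ≥ x0, ∀ H : ℕ, (x : ℝ) ^ w ≤ H → H ≤ x →
      (((Finset.Ioc x (x + H)).filter (fun d => Squarefree d ∧
        ¬ GoodK P θ a (w + eS σ a w) (eS σ a w + ε) x d)).card : ℝ) ≤ 5 * (H * (x : ℝ) ^ (-δ)) := by
  have h_P_N0 : P_N0 := T_N0
  have h_P_N0d : P_N0d := T_N0d
  have h_P_SPL : P_SPL := T_SPL h_P_N0
  have h_P_N2 : P_N2 := T_N2 h_P_SPL
  have h_P_KR : P_KR := T_KR
  have h_P_PV : P_PV := T_PV
  have h_P_N3a : P_N3a := T_N3a h_P_KR h_P_PV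
  have h_P_N3b : P_N3b := T_N3b h_P_KR h_P_PV h_P_N3a
  have h_P_N3 : P_N3 := T_N3 h_P_N2 h_P_N3b
  have ha0 : 0 < a := by
    by_contra h
    push Not at h
    nlinarith
  set θ0 : ℝ := (a - 2 * w * (a * σ - 1)) / (2 * (a * (1 + σ) - 1)) with hθ0
  have hσle : 1 < a := by nlinarith
  have hden : 0 < 2 * (a * (1 + σ) - 1) := by nlinarith
  set κ : ℝ := eS σ a w with hκ
  have hκnn : 0 ≤ κ := le_max_left _ _
  have hwa : 0 ≤ w * (a * σ - 1) := mul_nonneg hw0.le (by linarith)
  have hκhalf : κ ≤ 1 / 2 := by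
    apply max_le (by norm_num)
    rw [div_le_iff₀ hden]
    nlinarith
  set c : ℝ := w + κ with hc
  have hc0 : 0 < c := by linarith
  have hc2 : c ≤ 3 / 2 := by linarith
  have hmain : 1 / 2 - c * (σ - 1 / a) ≤ κ := by
    have hs : 0 < σ - 1 / a := by
      rw [sub_pos, div_lt_iff₀ ha0]
      linarith
    have key : θ0 * (2 * (a * (1 + σ) - 1)) = a - 2 * w * (a * σ - 1) := by
      rw [hθ0, div_mul_cancel₀ _ hden.ne']
    have h1 : 1 / 2 - w * (σ - 1 / a) = θ0 * (1 + (σ - 1 / a)) := by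
      have ha' : a ≠ 0 := ha0.ne'
      field_simp
      linarith
    have h2 : θ0 * (1 + (σ - 1 / a)) ≤ κ * (1 + (σ - 1 / a)) :=
      mul_le_mul_of_nonneg_right (le_max_right _ _) (by linarith)
    have h3 : c * (σ - 1 / a) = w * (σ - 1 / a) + κ * (σ - 1 / a) := by rw [hc]; ring
    rw [h3]
    linarith
  obtain ⟨δ, hδ, hδ2, X0, hX0⟩ := count_badT h_P_N3 h_P_N3a P σ hσ0 hσ1 hP a
    ha c w κ θ hc0 hc2 hθpos hκnn hmain (by rw [hc]; linarith) ε hε
  -- a bad radicand gives a bad discriminant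
  have key : ∀ Y : ℕ, 1 ≤ Y → ∀ d : ℕ, Y < d →
      Squarefree d → ¬ GoodK P θ a c (κ + ε) Y d →
      IsFund (Dof d) ∧ BadT P θ a c (κ + ε) Y (Dof d) := by
    intro Y hY1 d hd1 hsq hbad
    have hd : 1 < d := by omega
    refine ⟨isFund_Dof hd hsq, ?_⟩
    unfold GoodK at hbad
    push Not at hbad
    obtain ⟨K, i1, i2, h2, hx, T, hT, hlt⟩ := hbad
    refine ⟨K, i1, i2, h2, ?_, T, hT, ?_⟩
    · rw [h_P_N0d K d hd hsq h2 hx]
      unfold Dof
      split_ifs <;> push_cast <;> rfl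
    · intro hle
      exact absurd hle (not_le.2 hlt)
  refine ⟨δ, hδ, hδ2, max X0 1, ?_⟩
  intro Y hY H hYH hHY
  have hY0 : X0 ≤ Y := le_trans (le_max_left _ _) hY
  have hY3 : 1 ≤ Y := le_trans (le_max_right _ _) hY
  have hYr : (0 : ℝ) < Y := by exact_mod_cast hY3
  set S := (Finset.Ioc Y (Y + H)).filter (fun d => Squarefree d ∧ ¬ GoodK P θ a c (κ + ε) Y d)
    with hS
  set A := (Finset.Ioc Y (Y + H)).filter (fun D => IsFund D ∧ BadT P θ a c (κ + ε) Y D)
    with hA
  set B := (Finset.Ioc (4 * Y) (4 * Y + 4 * H)).filter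
    (fun D => IsFund D ∧ BadT P θ a c (κ + ε) Y D) with hB
  have hA' := hX0 Y hY0 Y H le_rfl (by omega) hYH hHY
  have h4H : (Y : ℝ) ^ w ≤ ((4 * H : ℕ) : ℝ) := by
    push_cast
    have : (0 : ℝ) ≤ H := Nat.cast_nonneg _
    linarith
  have hB' := hX0 Y hY0 (4 * Y) (4 * H) (by omega) le_rfl h4H (by omega)
  have hinj : S.card ≤ (A ∪ B).card := by
    refine Finset.card_le_card_of_injOn Dof ?_ ?_
    · intro d hd
      rw [Finset.mem_coe] at hd ⊢
      obtain ⟨h1, h2, h3⟩ := Finset.mem_filter.1 hd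
      obtain ⟨h4, h5⟩ := Finset.mem_Ioc.1 h1
      have hk := key Y hY3 d h4 h2 h3
      rw [Finset.mem_union]
      by_cases h : d % 4 = 1
      · left
        have hDof : Dof d = d := by unfold Dof; rw [if_pos h]
        rw [hA, Finset.mem_filter, Finset.mem_Ioc]
        exact ⟨by rw [hDof]; exact ⟨h4, h5⟩, hk⟩
      · right
        have hDof : Dof d = 4 * d := by unfold Dof; rw [if_neg h]
        rw [hB, Finset.mem_filter, Finset.mem_Ioc]
        exact ⟨by rw [hDof]; omega, hk⟩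
    · intro d _ d' _ hdd
      unfold Dof at hdd
      split_ifs at hdd <;> omega
  have h1 : (S.card : ℝ) ≤ A.card + B.card := by
    exact_mod_cast hinj.trans (Finset.card_union_le _ _)
  have h4 : ((4 * H : ℕ) : ℝ) * (Y : ℝ) ^ (-δ) = 4 * (H * (Y : ℝ) ^ (-δ)) := by
    push_cast
    ring
  rw [h4] at hB'
  linarith


/-- the number of factors -/
theorem ev_kS (a c ε : ℝ) (ha : 0 < a) (hc : 0 < c) (hε : 0 < ε) : ∀ᶠ x : ℕ in atTop,
    (kS a c x : ℝ) ≤ (c + ε) / a * (Real.log x / Real.log (Real.log x)) := by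
  have hLt : Tendsto (fun X : ℕ => Real.log (X : ℝ)) atTop atTop :=
    Real.tendsto_log_atTop.comp tendsto_natCast_atTop_atTop
  have hlt : Tendsto (fun X : ℕ => Real.log (Real.log (X : ℝ))) atTop atTop :=
    Real.tendsto_log_atTop.comp hLt
  filter_upwards [hLt.eventually_ge_atTop 1, hlt.eventually_ge_atTop 1,
    hlt.eventually_ge_atTop ((Real.log 4 + 1) / a),
    hlt.eventually_ge_atTop ((c + ε) * Real.log 4 / (ε * a))] with x h1 h2 h3 h4
  set L := Real.log (x : ℝ) with hL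
  set l := Real.log L with hl
  have hL0 : 0 < L := by linarith
  have hl0 : 0 < l := by linarith
  have hal : Real.log 4 + 1 ≤ a * l := by
    rw [div_le_iff₀ ha] at h3
    linarith
  have hz : Real.exp 1 ≤ L ^ a / 4 := by
    have e1 : L ^ a = Real.exp (a * l) := by
      rw [Real.rpow_def_of_pos hL0, mul_comm]
    rw [le_div_iff₀ (by norm_num), e1]
    calc Real.exp 1 * 4 = Real.exp (Real.log 4 + 1) := by
          rw [Real.exp_add, Real.exp_log (by norm_num)]; ring
      _ ≤ _ := Real.exp_le_exp.2 hal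
  have he1 : (2 : ℝ) ≤ Real.exp 1 := by
    have := Real.add_one_le_exp (1 : ℝ)
    linarith
  have hfl : L ^ a / 4 ≤ ((2 * yS a x : ℕ) : ℝ) := by
    have h5 : L ^ a / 4 < (yS a x : ℝ) + 1 := Nat.lt_floor_add_one _
    push_cast
    linarith
  have hlog : a * l - Real.log 4 ≤ Real.log (2 * yS a x) := by
    have e1 : Real.log (L ^ a / 4) = a * l - Real.log 4 := by
      rw [Real.log_div (by positivity) (by norm_num), Real.log_rpow hL0]
    rw [← e1]
    refine Real.log_le_log (by positivity) ?_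
    have := hfl
    push_cast at this
    exact this
  have hpos : 0 < a * l - Real.log 4 := by linarith
  have hk : (kS a c x : ℝ) ≤ c * L / Real.log (2 * yS a x) := by
    unfold kS
    exact Nat.floor_le (div_nonneg (by positivity) (hpos.le.trans hlog))
  refine hk.trans ?_
  have h5 : c * L / Real.log (2 * yS a x) ≤ c * L / (a * l - Real.log 4) :=
    div_le_div_of_nonneg_left (by positivity) hpos hlog
  refine h5.trans ?_
  rw [div_le_iff₀ hpos]
  have h6 : (c + ε) * Real.log 4 ≤ l * (ε * a) := by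
    rwa [div_le_iff₀ (by positivity)] at h4
  have h7 : c * L * (a * l) ≤ (c + ε) * L * (a * l - Real.log 4) := by nlinarith
  have h8 : (c + ε) / a * (L / l) * (a * l - Real.log 4) =
      (c + ε) * L * (a * l - Real.log 4) / (a * l) := by
    field_simp
  rw [h8, le_div_iff₀ (by positivity)]
  exact h7

/-- binomial coefficients: `C (t + N, N) ≤ ((t + N) / N) ^ N exp N` -/
theorem choose_exp (t N : ℕ) (hN : 1 ≤ N) :
    (((t + N).choose N : ℕ) : ℝ) ≤ (((t : ℝ) + N) / N) ^ N * Real.exp N := by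
  have h1 : (((t + N).choose N : ℕ) : ℝ) ≤ ((t + N : ℕ) : ℝ) ^ N / (N.factorial : ℝ) :=
    Nat.choose_le_pow_div N (t + N)
  have h2 := Real.pow_div_factorial_le_exp (N : ℝ) (Nat.cast_nonneg _) N
  have hN0 : (0 : ℝ) < N := by exact_mod_cast hN
  have hf : (0 : ℝ) < (N.factorial : ℝ) := by exact_mod_cast N.factorial_pos
  calc (((t + N).choose N : ℕ) : ℝ) ≤ ((t + N : ℕ) : ℝ) ^ N / (N.factorial : ℝ) := h1
    _ = (((t : ℝ) + N) / N) ^ N * ((N : ℝ) ^ N / (N.factorial : ℝ)) := by
        rw [div_pow]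
        push_cast
        field_simp
    _ ≤ _ := mul_le_mul_of_nonneg_left h2 (by positivity)

section
variable {G : Type} [CommGroup G]

theorem ncard_choose [Finite G] (T : Set G) (n : ℝ) :
    (Prods T n).ncard ≤ (T.ncard + ⌊n⌋₊).choose ⌊n⌋₊ := by
  have : Fintype G := Fintype.ofFinite G
  set N := ⌊n⌋₊ with hN
  set T' : Set G := insert 1 T with hT'
  have hsub : Prods T n ⊆ Set.range
      (fun s : Sym T' N => (Multiset.map (Subtype.val : T' → G) s.1).prod) := by
    rintro c ⟨L, h1, h2, rfl⟩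
    have h3 : Multiset.card L ≤ N := Nat.le_floor h2
    have h4 : ∀ x ∈ L, x ∈ T' := fun x hx => Set.mem_insert_of_mem _ (h1 x hx)
    let Lt : Multiset T' := L.attach.map (fun x : {y // y ∈ L} => (⟨x.1, h4 x.1 x.2⟩ : T')) +
      Multiset.replicate (N - Multiset.card L) (⟨1, Set.mem_insert _ _⟩ : T')
    have hLt : Multiset.card Lt = N := by
      change Multiset.card (L.attach.map (fun x : {y // y ∈ L} => (⟨x.1, h4 x.1 x.2⟩ : T')) +
        Multiset.replicate (N - Multiset.card L) (⟨1, Set.mem_insert _ _⟩ : T')) = N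
      rw [Multiset.card_add, Multiset.card_map, Multiset.card_attach, Multiset.card_replicate]
      omega
    refine ⟨⟨Lt, hLt⟩, ?_⟩
    change (Multiset.map (Subtype.val : T' → G)
      (L.attach.map (fun x : {y // y ∈ L} => (⟨x.1, h4 x.1 x.2⟩ : T')) +
      Multiset.replicate (N - Multiset.card L) (⟨1, Set.mem_insert _ _⟩ : T'))).prod = _
    rw [Multiset.map_add, Multiset.prod_add, Multiset.map_map, Multiset.map_replicate,
      Multiset.prod_replicate, one_pow, mul_one]
    change (L.attach.map (fun x : {y // y ∈ L} => x.1)).prod = _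
    rw [Multiset.attach_map_val]
  have h5 : (Prods T n).ncard ≤ Nat.card (Sym T' N) := by
    refine (Set.ncard_le_ncard hsub (Set.toFinite _)).trans ?_
    rw [← Set.image_univ]
    refine (Set.ncard_image_le (Set.toFinite _)).trans ?_
    rw [Set.ncard_univ]
  refine h5.trans ?_
  have h6 : Nat.card (Sym T' N) = (Fintype.card T').multichoose N := by
    rw [Nat.card_eq_fintype_card, Sym.card_sym_eq_multichoose]
  rw [h6, Nat.multichoose_eq]
  have h7 : Fintype.card T' ≤ T.ncard + 1 := by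
    rw [← Nat.card_eq_fintype_card]
    exact (Set.ncard_insert_le 1 T)
  exact Nat.choose_le_choose N (by omega)

end

/-- a set of at most `(log x) ^ b` classes has few products -/
theorem ev_few (q b η : ℝ) (hq : 0 < q) (hb : 1 ≤ b) (hη : 0 < η) : ∀ᶠ x : ℕ in atTop,
    ∀ t : ℕ, (t : ℝ) ≤ (Real.log x) ^ b →
      (((t + ⌊q * (Real.log x / Real.log (Real.log x))⌋₊).choose
        ⌊q * (Real.log x / Real.log (Real.log x))⌋₊ : ℕ) : ℝ) ≤ (x : ℝ) ^ (q * (b - 1) + η) := by
  have hLt : Tendsto (fun X : ℕ => Real.log (X : ℝ)) atTop atTop :=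
    Real.tendsto_log_atTop.comp tendsto_natCast_atTop_atTop
  have hlt : Tendsto (fun X : ℕ => Real.log (Real.log (X : ℝ))) atTop atTop :=
    Real.tendsto_log_atTop.comp hLt
  set η' : ℝ := η / (2 * q) with hη'
  have hη'0 : 0 < η' := by positivity
  -- `1 + (2 / q) l L ^ (b - 1) ≤ L ^ (b - 1 + η')`, i.e. in terms of `l`
  have hexp : Tendsto (fun l : ℝ => Real.exp (η' * l) / l ^ (1 : ℝ)) atTop atTop :=
    tendsto_exp_mul_div_rpow_atTop 1 η' hη'0
  have hA : ∀ᶠ X : ℕ in atTop, 1 + 2 / q ≤ Real.exp (η' * Real.log (Real.log (X : ℝ))) /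
      (Real.log (Real.log (X : ℝ))) ^ (1 : ℝ) := (hexp.comp hlt).eventually_ge_atTop (1 + 2 / q)
  have hB : ∀ᶠ X : ℕ in atTop, 2 / q * Real.log (Real.log (X : ℝ)) ≤ Real.log (X : ℝ) := by
    have h1 := hLt.eventually (Real.isLittleO_log_id_atTop.bound (show (0 : ℝ) < q / 2 by positivity))
    filter_upwards [h1, hLt.eventually_ge_atTop 1] with X h2 h3
    have h4 : 0 ≤ Real.log (Real.log (X : ℝ)) := Real.log_nonneg h3
    rw [Real.norm_of_nonneg h4, id, Real.norm_of_nonneg (by linarith)] at h2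
    calc 2 / q * Real.log (Real.log (X : ℝ)) ≤ 2 / q * (q / 2 * Real.log (X : ℝ)) := by gcongr
      _ = _ := by field_simp
  filter_upwards [hLt.eventually_ge_atTop 1, hlt.eventually_ge_atTop 1,
    hlt.eventually_ge_atTop (2 * q / η), hA, hB, eventually_ge_atTop 1] with x h1 h2 h3 h4 h5 h6 t ht
  set L := Real.log (x : ℝ) with hL
  set l := Real.log L with hl
  have hL0 : 0 < L := by linarith
  have hl0 : 0 < l := by linarith
  have hx0 : (0 : ℝ) < x := by exact_mod_cast h6
  set N : ℕ := ⌊q * (L / l)⌋₊ with hN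
  have hz2 : 2 ≤ q * (L / l) := by
    have : 2 / q * l ≤ L := h5
    rw [div_mul_eq_mul_div, div_le_iff₀ hq] at this
    rw [← mul_div_assoc, le_div_iff₀ hl0]
    linarith
  have hNle : (N : ℝ) ≤ q * (L / l) := Nat.floor_le (by positivity)
  have hNge : q * (L / l) / 2 ≤ (N : ℝ) := by
    have : q * (L / l) < (N : ℝ) + 1 := Nat.lt_floor_add_one _
    linarith
  have hN0 : (0 : ℝ) < N := lt_of_lt_of_le (by linarith) hNge
  have hN1 : 1 ≤ N := by exact_mod_cast hN0
  refine (choose_exp t N hN1).trans ?_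
  have hLb : L ^ b = L * L ^ (b - 1) := by
    rw [← Real.rpow_one_add' hL0.le (by linarith)]
    congr 1
    ring
  have hLb1 : 1 ≤ L ^ (b - 1) := Real.one_le_rpow h1 (by linarith)
  have hratio : ((t : ℝ) + N) / N ≤ Real.exp ((b - 1 + η') * l) := by
    have e1 : ((t : ℝ) + N) / N = 1 + (t : ℝ) / N := by
      field_simp
      ring
    have e2 : (t : ℝ) / N ≤ 2 / q * l * L ^ (b - 1) := by
      rw [div_le_iff₀ hN0]
      calc (t : ℝ) ≤ L ^ b := ht
        _ = L * L ^ (b - 1) := hLb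
        _ = (2 / q * l * L ^ (b - 1)) * (q * (L / l) / 2) := by field_simp
        _ ≤ _ := by gcongr
    have e3 : 1 + 2 / q ≤ Real.exp (η' * l) / l := by
      have := h4
      rwa [Real.rpow_one] at this
    rw [le_div_iff₀ hl0] at e3
    have e4 : L ^ (b - 1) = Real.exp ((b - 1) * l) := by
      rw [Real.rpow_def_of_pos hL0, mul_comm]
    rw [e1]
    calc 1 + (t : ℝ) / N ≤ 1 + 2 / q * l * L ^ (b - 1) := by linarith
      _ ≤ l * L ^ (b - 1) + 2 / q * l * L ^ (b - 1) := by
          have : 1 ≤ l * L ^ (b - 1) := by nlinarith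
          linarith
      _ = ((1 + 2 / q) * l) * L ^ (b - 1) := by ring
      _ ≤ Real.exp (η' * l) * L ^ (b - 1) := by gcongr
      _ = Real.exp ((b - 1 + η') * l) := by
          rw [e4, ← Real.exp_add]
          congr 1
          ring
  have hrat0 : 0 ≤ ((t : ℝ) + N) / N := by positivity
  calc (((t : ℝ) + N) / N) ^ N * Real.exp N ≤ (Real.exp ((b - 1 + η') * l)) ^ N * Real.exp N := by
        gcongr
    _ = Real.exp (N * ((b - 1 + η') * l + 1)) := by
        rw [← Real.exp_nat_mul, ← Real.exp_add]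
        congr 1
        ring
    _ ≤ Real.exp ((q * (b - 1) + η) * L) := by
        apply Real.exp_le_exp.2
        have f1 : 0 ≤ (b - 1 + η') * l + 1 := by
          have : 0 ≤ b - 1 + η' := by linarith
          positivity
        have f2 : (N : ℝ) * ((b - 1 + η') * l + 1) ≤ q * (L / l) * ((b - 1 + η') * l + 1) := by
          gcongr
        have f3 : q * (L / l) * ((b - 1 + η') * l + 1) = (q * (b - 1) + q * η' + q / l) * L := by
          field_simp
        have f4 : q * η' = η / 2 := by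
          rw [hη']
          field_simp
        have f5 : q / l ≤ η / 2 := by
          rw [div_le_iff₀ hl0]
          rw [div_le_iff₀ hη] at h3
          linarith
        rw [f3, f4] at f2
        refine f2.trans (mul_le_mul_of_nonneg_right ?_ hL0.le)
        linarith
    _ = (x : ℝ) ^ (q * (b - 1) + η) := by
        rw [Real.rpow_def_of_pos hx0, mul_comm]

end Pool.Agent.P8H9.OP
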